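import Mathlib

/-!
# Coding a set of integers into the members of an ultrafilter which is not a p-point

If `V` is an ultrafilter with a sequence of members without pseudo-intersection in `V`, there is a
function `π` such that every member of `V` has infinitely many infinite fibres, while `V` ignores
the sets with finite fibres.  Into each member `S` of `V` we can then code an arbitrary set `X` of
natural numbers, by removing points only in a way `V` does not see: the coded set `C S X ⊆ S` has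
`X` written in the order in which its fibres appear.
-/

set_option autoImplicit false

namespace Pool.Agent.Y287.BG

open Set Filter

/-- Every sequence of members of `V` has a pseudo-intersection in `V`. -/
def PseudoInt (V : Ultrafilter ℕ) : Prop :=
  ∀ A : ℕ → Set ℕ, (∀ n, A n ∈ V) → ∃ Z ∈ V, ∀ n, (Z \ A n).Finite

/-- pointwise convergence of sets -/
def Conv (X : ℕ → Set ℕ) (Y : Set ℕ) : Prop :=
  ∀ m : ℕ, ∀ᶠ n in atTop, (m ∈ X n ↔ m ∈ Y)

theorem Conv.below {X : ℕ → Set ℕ} {Y : Set ℕ} (h : Conv X Y) (M : ℕ) :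
    ∀ᶠ n in atTop, ∀ m < M, (m ∈ X n ↔ m ∈ Y) := by
  have : ∀ᶠ n in atTop, ∀ m ∈ Finset.range M, (m ∈ X n ↔ m ∈ Y) := by
    rw [Filter.eventually_all_finset]
    intro m _
    exact h m
  filter_upwards [this] with n hn m hm
  exact hn m (Finset.mem_range.2 hm)

/-- The p-point case. -/
theorem ppoint_case {V : Ultrafilter ℕ} (hV : PseudoInt V) (X : ℕ → Set ℕ) (Y : Set ℕ)
    (hX : ∀ n, X n ∈ V) (hY : Y ∈ V) (hc : Conv X Y) :
    ∃ φ : ℕ → ℕ, StrictMono φ ∧ (⋂ k, X (φ k)) ∈ V := by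
  obtain ⟨Z0, hZ0, hfin⟩ := hV X hX
  set Z := Z0 ∩ Y with hZdef
  have hZ : Z ∈ V := inter_mem hZ0 hY
  have hb : ∀ n, ∃ b : ℕ, ∀ z ∈ Z, z ∉ X n → z < b := by
    intro n
    obtain ⟨b, hb⟩ := (hfin n).bddAbove
    exact ⟨b + 1, fun z hz hzX => Nat.lt_succ_of_le (hb ⟨hz.1, hzX⟩)⟩
  choose b hb using hb
  have hn : ∀ M : ℕ, ∀ N : ℕ, ∃ n, N < n ∧ ∀ m < M, (m ∈ X n ↔ m ∈ Y) := by
    intro M N
    obtain ⟨n, h1, h2⟩ := ((hc.below M).and (eventually_gt_atTop N)).exists
    exact ⟨n, h2, h1⟩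
  choose nx hnx1 hnx2 using hn
  -- the state is `(n_k, m_k)`
  let st : ℕ → ℕ × ℕ := fun k => Nat.rec (nx 0 0, 0)
    (fun _ s => (nx (max (b s.1) s.2) s.1, max (b s.1) s.2)) k
  have hst : ∀ k, st (k + 1) = (nx (max (b (st k).1) (st k).2) (st k).1,
      max (b (st k).1) (st k).2) := fun k => rfl
  set φ : ℕ → ℕ := fun k => (st k).1 with hφ
  set μ : ℕ → ℕ := fun k => (st k).2 with hμ
  have hφ1 : ∀ k, φ (k + 1) = nx (μ (k + 1)) (φ k) := by
    intro k; simp only [hφ, hμ, hst]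
  have hμ1 : ∀ k, μ (k + 1) = max (b (φ k)) (μ k) := by
    intro k; simp only [hφ, hμ, hst]
  have hφmono : StrictMono φ := strictMono_nat_of_lt_succ fun k => by
    rw [hφ1]; exact hnx1 _ _
  have hμmono : Monotone μ := monotone_nat_of_le_succ fun k => by
    rw [hμ1]; exact le_max_right _ _
  have hagree : ∀ k, ∀ m < μ k, (m ∈ X (φ k) ↔ m ∈ Y) := by
    intro k
    cases k with
    | zero => intro m hm; exact absurd hm (Nat.not_lt_zero m)
    | succ k => rw [hφ1]; exact hnx2 _ _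
  set E : ℕ → Set ℕ := fun k => Z \ X (φ k) with hE
  have hE1 : ∀ k, ∀ z ∈ E k, μ k ≤ z := by
    intro k z hz
    by_contra hlt
    push Not at hlt
    exact hz.2 ((hagree k z hlt).2 hz.1.2)
  have hE2 : ∀ k, ∀ z ∈ E k, z < μ (k + 1) := by
    intro k z hz
    rw [hμ1]
    exact lt_of_lt_of_le (hb (φ k) z hz.1 hz.2) (le_max_left _ _)
  have hdisj : ∀ k l, k < l → ∀ z, z ∈ E k → z ∉ E l := by
    intro k l hkl z hz hz'
    have h1 := hE2 k z hz
    have h2 := hE1 l z hz'
    have h3 := hμmono (show k + 1 ≤ l from hkl)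
    omega
  have hdisj' : ∀ k l, k ≠ l → ∀ z, z ∈ E k → z ∉ E l := by
    intro k l hkl z hz hz'
    rcases lt_or_gt_of_ne hkl with h | h
    · exact hdisj k l h z hz hz'
    · exact hdisj l k h z hz' hz
  by_cases hcase : Z \ (⋃ k, E (2 * k)) ∈ V
  · refine ⟨fun k => φ (2 * k), fun i j hij =>
      hφmono (show 2 * i < 2 * j by omega), ?_⟩
    refine mem_of_superset hcase ?_
    rintro z ⟨hz, hz'⟩
    rw [mem_iInter]
    intro k
    by_contra hcon
    exact hz' (mem_iUnion.2 ⟨k, hz, hcon⟩)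
  · refine ⟨fun k => φ (2 * k + 1), fun i j hij =>
      hφmono (show 2 * i + 1 < 2 * j + 1 by omega), ?_⟩
    have h1 : (⋃ k, E (2 * k)) ∈ V := by
      by_contra hcon
      have h2 : (⋃ k, E (2 * k))ᶜ ∈ V := Ultrafilter.compl_mem_iff_notMem.2 hcon
      exact hcase (inter_mem hZ h2)
    refine mem_of_superset (inter_mem hZ h1) ?_
    rintro z ⟨hz, hz'⟩
    rw [mem_iInter]
    intro k
    by_contra hcon
    obtain ⟨l, hl⟩ := mem_iUnion.1 hz'
    exact hdisj' (2 * l) (2 * k + 1) (by omega) z hl ⟨hz, hcon⟩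

/-- `x` is the first point of its fibre in `C`. -/
def New (π : ℕ → ℕ) (C : Set ℕ) (x : ℕ) : Prop := x ∈ C ∧ ∀ y ∈ C, y < x → π y ≠ π x

theorem New.congr {π : ℕ → ℕ} {C C' : Set ℕ} {M : ℕ} (h : ∀ m < M, (m ∈ C ↔ m ∈ C')) {x : ℕ}
    (hx : x < M) : New π C x ↔ New π C' x := by
  unfold New
  rw [h x hx]
  constructor
  · rintro ⟨h1, h2⟩
    exact ⟨h1, fun y hy hyx => h2 y ((h y (hyx.trans hx)).2 hy) hyx⟩
  · rintro ⟨h1, h2⟩
    exact ⟨h1, fun y hy hyx => h2 y ((h y (hyx.trans hx)).1 hy) hyx⟩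

open Classical in
theorem count_of_range {p : ℕ → Prop} {x : ℕ → ℕ} (hx : StrictMono x)
    (hp : ∀ n, p n ↔ n ∈ Set.range x) (j : ℕ) : Nat.count p (x j) = j := by
  rw [Nat.count_eq_card_filter_range]
  have : (Finset.range (x j)).filter p = (Finset.range j).image x := by
    ext n
    simp only [Finset.mem_filter, Finset.mem_range, Finset.mem_image, hp, Set.mem_range]
    constructor
    · rintro ⟨h1, i, rfl⟩
      exact ⟨i, hx.lt_iff_lt.1 h1, rfl⟩
    · rintro ⟨i, hi, rfl⟩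
      exact ⟨hx hi, i, rfl⟩
  rw [this, Finset.card_image_of_injective _ hx.injective, Finset.card_range]

/-- If two sets agree below a bound, so do the enumerations of their new points. -/
theorem new_enum {π : ℕ → ℕ} {C C' : Set ℕ} {x x' : ℕ → ℕ} (hx : StrictMono x)
    (hx' : StrictMono x') (hp : ∀ n, New π C n ↔ n ∈ Set.range x)
    (hp' : ∀ n, New π C' n ↔ n ∈ Set.range x') (j : ℕ)
    (h : ∀ m < x j + 1, (m ∈ C' ↔ m ∈ C)) : x' j = x j := by
  classical
  have h1 : Nat.count (New π C) (x j) = j := count_of_range hx hp j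
  have h1' : Nat.count (New π C') (x' j) = j := count_of_range hx' hp' j
  have h2 : New π C' (x j) := (New.congr h (Nat.lt_succ_self _)).2 ((hp _).2 ⟨j, rfl⟩)
  have h3 : Nat.count (New π C') (x j) = j := by
    refine Eq.trans ?_ h1
    rw [Nat.count_eq_card_filter_range, Nat.count_eq_card_filter_range]
    congr 1
    apply Finset.filter_congr
    intro n hn
    rw [Finset.mem_range] at hn
    exact New.congr h (by omega)
  exact Nat.count_injective ((hp' _).2 ⟨j, rfl⟩) h2 (h1'.trans h3.symm)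

/-- The coding lemma. -/
theorem coding {V : Ultrafilter ℕ} (hV : ¬ PseudoInt V) :
    ∃ (T : Set ℕ → Set ℕ) (C : Set ℕ → Set ℕ → Set ℕ),
      (∀ S ∈ V, T S ∈ V) ∧ (∀ S ∈ V, ∀ X, T S ⊆ C S X ∧ C S X ⊆ S) ∧
      ∀ (S' : ℕ → Set ℕ) (X' : ℕ → Set ℕ) (S X : Set ℕ), (∀ n, S' n ∈ V) → S ∈ V →
        Conv (fun n => C (S' n) (X' n)) (C S X) → Conv X' X := by
  classical
  unfold PseudoInt at hV
  push Not at hV
  obtain ⟨A, hA, hno⟩ := hV
  set J : Set ℕ := {x | ∃ n, x ∉ A n} with hJ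
  set π : ℕ → ℕ := fun x => sInf {n | x ∉ A n} with hπ
  have hπ1 : ∀ x ∈ J, x ∉ A (π x) := fun x hx => Nat.sInf_mem (s := {n | x ∉ A n}) hx
  have hπ2 : ∀ x n, x ∉ A n → π x ≤ n := fun x n hn => Nat.sInf_le hn
  -- finite fibres
  have claimC : ∀ R : Set ℕ, R ⊆ J → (∀ n, {x ∈ R | π x = n}.Finite) → R ∉ V := by
    intro R hRJ hfin hR
    obtain ⟨n, hn⟩ := hno R hR
    apply hn
    have : R \ A n ⊆ ⋃ i ∈ Finset.range (n + 1), {x ∈ R | π x = i} := by
      rintro x ⟨hx, hxA⟩
      rw [mem_iUnion₂]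
      exact ⟨π x, Finset.mem_range.2 (Nat.lt_succ_of_le (hπ2 x n hxA)), hx, rfl⟩
    exact (Set.Finite.biUnion (Finset.finite_toSet _) (fun i _ => hfin i)).subset this
  have hJV : J ∈ V := by
    by_contra hcon
    have h1 : Jᶜ ∈ V := Ultrafilter.compl_mem_iff_notMem.2 hcon
    obtain ⟨n, hn⟩ := hno _ h1
    apply hn
    have : Jᶜ \ A n = ∅ := by
      rw [Set.eq_empty_iff_forall_notMem]
      rintro x ⟨h2, h3⟩
      exact h2 ⟨n, h3⟩
    rw [this]
    exact Set.finite_empty
  -- the infinite fibres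
  set N : Set ℕ → Set ℕ := fun S => {n | {x ∈ S ∩ J | π x = n}.Infinite} with hN
  have hNinf : ∀ S ∈ V, (N S).Infinite := by
    intro S hS hfin
    obtain ⟨n0, hn0⟩ := hfin.bddAbove
    have hR : S ∩ J ∩ (⋂ i ∈ Finset.range (n0 + 1), A i) ∈ V := by
      refine inter_mem (inter_mem hS hJV) ?_
      exact (Filter.biInter_finset_mem _).2 fun i _ => hA i
    refine claimC _ (fun x hx => hx.1.2) ?_ hR
    intro n
    by_cases hn : n ≤ n0
    · have : {x ∈ S ∩ J ∩ (⋂ i ∈ Finset.range (n0 + 1), A i) | π x = n} = ∅ := by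
        ext x
        simp only [mem_ofPred_eq, mem_empty_iff_false, iff_false]
        rintro ⟨⟨⟨h1, h2⟩, h3⟩, h4⟩
        rw [mem_iInter₂] at h3
        exact hπ1 x h2 (h4 ▸ h3 n (Finset.mem_range.2 (by omega)))
      rw [this]; exact Set.finite_empty
    · have h1 : n ∉ N S := fun h => hn (hn0 h)
      have h2 : {x ∈ S ∩ J | π x = n}.Finite := by
        by_contra h3
        exact h1 h3
      exact h2.subset fun x hx => ⟨hx.1.1, hx.2⟩
  -- code points
  have hpts : ∀ S : Set ℕ, ∃ (e : ℕ → ℕ) (a b c : ℕ → ℕ), S ∈ V → StrictMono e ∧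
      (∀ n, n ∈ N S ↔ n ∈ Set.range e) ∧
      (∀ i, a i < b i ∧ b i < c i ∧ c i < a (i + 1)) ∧
      (∀ i, a i ∈ S ∧ π (a i) = e (2 * i)) ∧ (∀ i, b i ∈ S ∧ π (b i) = e (2 * i + 1)) ∧
      (∀ i, c i ∈ S ∧ π (c i) = e (2 * i)) := by
    intro S
    by_cases hS : S ∈ V
    · have hinf := hNinf S hS
      set e : ℕ → ℕ := Nat.nth (· ∈ N S) with he
      have he1 : StrictMono e := Nat.nth_strictMono hinf
      have he2 : ∀ n, n ∈ N S ↔ n ∈ Set.range e := by
        intro n
        have h1 := Nat.range_nth_of_infinite (p := (· ∈ N S)) hinf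
        rw [he, h1]
        rfl
      have he3 : ∀ j M, ∃ x, M < x ∧ x ∈ S ∧ π x = e j := by
        intro j M
        have h1 : e j ∈ N S := (he2 _).2 ⟨j, rfl⟩
        obtain ⟨x, hx, hMx⟩ := Set.Infinite.exists_gt h1 M
        exact ⟨x, hMx, hx.1.1, hx.2⟩
      choose p hp1 hp2 hp3 using he3
      let st : ℕ → ℕ × ℕ × ℕ := fun i => Nat.rec
        (p 0 0, p 1 (p 0 0), p 0 (p 1 (p 0 0)))
        (fun i s => (p (2 * (i + 1)) s.2.2, p (2 * (i + 1) + 1) (p (2 * (i + 1)) s.2.2),
          p (2 * (i + 1)) (p (2 * (i + 1) + 1) (p (2 * (i + 1)) s.2.2)))) i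
      have hst : ∀ i, st (i + 1) = (p (2 * (i + 1)) (st i).2.2,
          p (2 * (i + 1) + 1) (p (2 * (i + 1)) (st i).2.2),
          p (2 * (i + 1)) (p (2 * (i + 1) + 1) (p (2 * (i + 1)) (st i).2.2))) := fun i => rfl
      have hst0 : st 0 = (p 0 0, p 1 (p 0 0), p 0 (p 1 (p 0 0))) := rfl
      refine ⟨e, fun i => (st i).1, fun i => (st i).2.1, fun i => (st i).2.2, fun _ =>
        ⟨he1, he2, ?_, ?_, ?_, ?_⟩⟩
      · intro i
        refine ⟨?_, ?_, ?_⟩
        · cases i with
          | zero => simp only [hst0]; exact hp1 _ _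
          | succ i => simp only [hst]; exact hp1 _ _
        · cases i with
          | zero => simp only [hst0]; exact hp1 _ _
          | succ i => simp only [hst]; exact hp1 _ _
        · simp only [hst]; exact hp1 _ _
      · intro i
        cases i with
        | zero => simp only [hst0]; exact ⟨hp2 _ _, hp3 _ _⟩
        | succ i => simp only [hst]; exact ⟨hp2 _ _, hp3 _ _⟩
      · intro i
        cases i with
        | zero => simp only [hst0]; exact ⟨hp2 _ _, hp3 _ _⟩
        | succ i => simp only [hst]; exact ⟨hp2 _ _, hp3 _ _⟩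
      · intro i
        cases i with
        | zero => simp only [hst0]; exact ⟨hp2 _ _, hp3 _ _⟩
        | succ i => simp only [hst]; exact ⟨hp2 _ _, hp3 _ _⟩
    · exact ⟨id, id, id, id, fun h => absurd h hS⟩
  choose e a b c habc using hpts
  -- the part of `S` on which nothing is coded
  set T : Set ℕ → Set ℕ := fun S => {x | x ∈ S ∧ x ∈ J ∧ ∃ j, e S j = π x ∧ c S (j / 2) < x}
    with hT
  set u : Set ℕ → Set ℕ → ℕ → ℕ := fun S X i => if i ∈ X then b S i else a S i with hu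
  set v : Set ℕ → Set ℕ → ℕ → ℕ := fun S X i => if i ∈ X then c S i else b S i with hv
  set x : Set ℕ → Set ℕ → ℕ → ℕ := fun S X j =>
    if j % 2 = 0 then u S X (j / 2) else v S X (j / 2) with hx
  have hTV : ∀ S ∈ V, T S ∈ V := by
    intro S hS
    obtain ⟨he1, he2, -⟩ := habc S hS
    have hR : {x | x ∈ S ∧ x ∈ J ∧ ¬ ∃ j, e S j = π x ∧ c S (j / 2) < x} ∉ V := by
      refine claimC _ (fun x hx => hx.2.1) ?_
      intro n
      by_cases hn : n ∈ N S
      · obtain ⟨j, hj⟩ := (he2 n).1 hn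
        refine (Set.finite_Iic (c S (j / 2))).subset ?_
        rintro y ⟨⟨h1, h2, h3⟩, h4⟩
        by_contra h5
        exact h3 ⟨j, hj.trans h4.symm, not_le.1 h5⟩
      · have h2 : {x ∈ S ∩ J | π x = n}.Finite := by
          by_contra h3
          exact hn h3
        exact h2.subset fun y hy => ⟨⟨hy.1.1, hy.1.2.1⟩, hy.2⟩
    have h1 := Ultrafilter.compl_mem_iff_notMem.2 hR
    refine mem_of_superset (inter_mem (inter_mem hS hJV) h1) ?_
    rintro y ⟨⟨h2, h3⟩, h4⟩
    refine ⟨h2, h3, ?_⟩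
    by_contra h5
    exact h4 ⟨h2, h3, h5⟩
  -- facts on the code points
  have hlt : ∀ S ∈ V, ∀ X i, u S X i < v S X i ∧ v S X i < u S X (i + 1) ∧ v S X i ≤ c S i := by
    intro S hS X i
    obtain ⟨-, -, h1, -⟩ := habc S hS
    have h2 := h1 i
    have h3 := h1 (i + 1)
    simp only [hu, hv]
    refine ⟨?_, ?_, ?_⟩
    · split_ifs <;> omega
    · split_ifs <;> omega
    · split_ifs <;> omega
  have hxmono : ∀ S ∈ V, ∀ X, StrictMono (x S X) := by
    intro S hS X
    apply strictMono_nat_of_lt_succ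
    intro j
    rcases Nat.even_or_odd' j with ⟨i, rfl | rfl⟩
    · have e1 : 2 * i % 2 = 0 := by omega
      have e2 : (2 * i + 1) % 2 ≠ 0 := by omega
      have e3 : 2 * i / 2 = i := by omega
      have e4 : (2 * i + 1) / 2 = i := by omega
      simp only [hx, if_pos e1, if_neg e2, e3, e4]
      exact (hlt S hS X i).1
    · have e1 : (2 * i + 1) % 2 ≠ 0 := by omega
      have e2 : (2 * i + 1 + 1) % 2 = 0 := by omega
      have e3 : (2 * i + 1) / 2 = i := by omega
      have e4 : (2 * i + 1 + 1) / 2 = i + 1 := by omega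
      simp only [hx, if_neg e1, if_pos e2, e3, e4]
      exact (hlt S hS X i).2.1
  have hxpi : ∀ S ∈ V, ∀ X j, x S X j ∈ S ∧ x S X j ≤ c S (j / 2) ∧
      π (x S X j) = e S (if j / 2 ∈ X then (if j % 2 = 0 then j + 1 else j - 1) else j) := by
    intro S hS X j
    obtain ⟨-, -, h1, h2, h3, h4⟩ := habc S hS
    have h5 := h1 (j / 2)
    by_cases hj : j % 2 = 0
    · have hj2 : 2 * (j / 2) = j := by omega
      by_cases hX : j / 2 ∈ X
      · simp only [hx, hu, if_pos hj, if_pos hX]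
        refine ⟨(h3 _).1, h5.2.1.le, ?_⟩
        rw [(h3 _).2, hj2]
      · simp only [hx, hu, if_pos hj, if_neg hX]
        refine ⟨(h2 _).1, (h5.1.trans h5.2.1).le, ?_⟩
        rw [(h2 _).2, hj2]
    · have hj2 : 2 * (j / 2) = j - 1 := by omega
      have hj3 : 2 * (j / 2) + 1 = j := by omega
      by_cases hX : j / 2 ∈ X
      · simp only [hx, hv, if_neg hj, if_pos hX]
        refine ⟨(h4 _).1, le_rfl, ?_⟩
        rw [(h4 _).2, hj2]
      · simp only [hx, hv, if_neg hj, if_neg hX]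
        refine ⟨(h3 _).1, h5.2.1.le, ?_⟩
        rw [(h3 _).2, hj3]
  -- the swapped index
  have hswap : ∀ X : Set ℕ, ∀ j, ∃ j', (j' / 2 = j / 2) ∧
      (if j' / 2 ∈ X then (if j' % 2 = 0 then j' + 1 else j' - 1) else j') = j := by
    intro X j
    by_cases hX : j / 2 ∈ X
    · by_cases hj : j % 2 = 0
      · refine ⟨j + 1, by omega, ?_⟩
        have e1 : (j + 1) / 2 = j / 2 := by omega
        have e2 : ¬ (j + 1) % 2 = 0 := by omega
        rw [e1, if_pos hX, if_neg e2]
        omega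
      · refine ⟨j - 1, by omega, ?_⟩
        have e1 : (j - 1) / 2 = j / 2 := by omega
        have e2 : (j - 1) % 2 = 0 := by omega
        rw [e1, if_pos hX, if_pos e2]
        omega
    · exact ⟨j, rfl, by rw [if_neg hX]⟩
  have hnew : ∀ S ∈ V, ∀ X n, New π (T S ∪ Set.range (x S X)) n ↔ n ∈ Set.range (x S X) := by
    intro S hS X n
    obtain ⟨he1, -, -⟩ := habc S hS
    constructor
    · rintro ⟨h1 | h1, h2⟩
      · exfalso
        obtain ⟨-, -, j, hj1, hj2⟩ := h1
        obtain ⟨j', hj'1, hj'2⟩ := hswap X j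
        obtain ⟨-, h3, h4⟩ := hxpi S hS X j'
        refine h2 (x S X j') (Or.inr ⟨j', rfl⟩) ?_ ?_
        · rw [hj'1] at h3; omega
        · rw [h4, hj'2, hj1]
      · exact h1
    · rintro ⟨j, rfl⟩
      refine ⟨Or.inr ⟨j, rfl⟩, ?_⟩
      obtain ⟨-, h3, h4⟩ := hxpi S hS X j
      rintro y (⟨-, -, j', hj'1, hj'2⟩ | ⟨j', rfl⟩) hy heq
      · have h5 := he1.injective ((hj'1.trans heq).trans h4)
        have h6 : j' / 2 = j / 2 := by
          rw [h5]
          split_ifs <;> omega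
        rw [h6] at hj'2
        omega
      · obtain ⟨-, -, h5⟩ := hxpi S hS X j'
        have h6 := he1.injective ((h5.symm.trans heq).trans h4)
        have h7 : j' < j := (hxmono S hS X).lt_iff_lt.1 hy
        have h8 : j' / 2 = j / 2 := by
          split_ifs at h6 <;> omega
        rw [h8] at h6
        split_ifs at h6 <;> omega
  have hbit : ∀ S ∈ V, ∀ X i, (i ∈ X ↔ π (x S X (2 * i + 1)) < π (x S X (2 * i))) := by
    intro S hS X i
    obtain ⟨he1, -, -⟩ := habc S hS
    rw [(hxpi S hS X (2 * i)).2.2, (hxpi S hS X (2 * i + 1)).2.2, he1.lt_iff_lt]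
    have e1 : 2 * i / 2 = i := by omega
    have e2 : (2 * i + 1) / 2 = i := by omega
    have e3 : 2 * i % 2 = 0 := by omega
    have e4 : ¬ (2 * i + 1) % 2 = 0 := by omega
    rw [e1, e2, if_pos e3, if_neg e4]
    by_cases hi : i ∈ X
    · simp only [hi, if_true, true_iff]; omega
    · simp only [hi, if_false, false_iff]; omega
  refine ⟨T, fun S X => T S ∪ Set.range (x S X), hTV, ?_, ?_⟩
  · intro S hS X
    refine ⟨subset_union_left, ?_⟩
    rintro y (hy | ⟨j, rfl⟩)
    · exact hy.1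
    · exact (hxpi S hS X j).1
  · intro S' X' S X hS' hS hconv i
    filter_upwards [hconv.below (x S X (2 * i + 1) + 1)] with n hn
    have h1 : x (S' n) (X' n) (2 * i + 1) = x S X (2 * i + 1) :=
      new_enum (π := π) (hxmono S hS X) (hxmono _ (hS' n) (X' n)) (hnew S hS X)
        (hnew _ (hS' n) (X' n)) (2 * i + 1) hn
    have h2 : x (S' n) (X' n) (2 * i) = x S X (2 * i) := by
      refine new_enum (π := π) (hxmono S hS X) (hxmono _ (hS' n) (X' n)) (hnew S hS X)
        (hnew _ (hS' n) (X' n)) (2 * i) fun m hm => hn m ?_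
      have := hxmono S hS X (show 2 * i < 2 * i + 1 by omega)
      omega
    rw [hbit S hS X i, hbit _ (hS' n) (X' n) i, h1, h2]

end Pool.Agent.Y287.BG
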